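import Pool.Agent.W528.HD.Stm

/-!
# Task HD-AQ: the arithmetic of the exponents
-/

set_option autoImplicit false

namespace Pool.Agent.W806.HD.AQ

open Finset

theorem inv_mod (r s : ℕ) (hr : r.Prime) (hs : 0 < s) (hsr : s < r) : ∃ t, t * s % r = 1 := by
  have hc : s.Coprime r := by
    rw [Nat.coprime_comm, hr.coprime_iff_not_dvd]
    exact fun h => absurd (Nat.le_of_dvd hs h) (by omega)
  obtain ⟨t, _, ht⟩ := Nat.exists_mul_mod_eq_one_of_coprime hc hr.one_lt
  exact ⟨t, by rw [mul_comm]; exact ht⟩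

theorem cop_of (p k j : ℕ) (hp : p.Prime) (h : k * j % p = 1) : k.Coprime p := by
  rw [Nat.coprime_comm, hp.coprime_iff_not_dvd]
  intro h2
  have : k * j % p = 0 := Nat.mod_eq_zero_of_dvd (h2.mul_right j)
  omega

/-- the choice of the multiplier -/
theorem choice (p r : ℕ) (hp : p.Prime) (hr : r.Prime) (hne : p ≠ r) (j s : ℕ) (hj : 0 < j)
    (hjp : j < p) (hs : s < r) : ∃ j' : ℕ, j'.Coprime (p * r) ∧ j' * j % p = 1 ∧
      (s = 0 ∨ j' * s % r = 1) := by
  have hco : r.Coprime p := (Nat.coprime_primes hr hp).2 hne.symm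
  obtain ⟨jp, hjp1⟩ := inv_mod p j hp hj hjp
  obtain ⟨w, hw, hw2⟩ : ∃ w : ℕ, w.Coprime r ∧ (s = 0 ∨ w * s % r = 1) := by
    rcases Nat.eq_zero_or_pos s with h | h
    · exact ⟨1, Nat.coprime_one_left r, Or.inl h⟩
    · obtain ⟨t, ht⟩ := inv_mod r s hr h hs
      exact ⟨t, cop_of r t s hr ht, Or.inr ht⟩
  obtain ⟨k, hk1, hk2⟩ := Nat.chineseRemainder hco w jp
  have h1 : k * j % p = 1 := by
    have h2 : k * j ≡ jp * j [MOD p] := hk2.mul_right j
    have h3 : k * j % p = jp * j % p := h2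
    rw [h3]
    exact hjp1
  refine ⟨k, ?_, h1, ?_⟩
  · apply Nat.Coprime.mul_right
    · exact cop_of p k j hp h1
    · have h4 : Nat.gcd k r = Nat.gcd w r := Nat.ModEq.gcd_eq hk1
      unfold Nat.Coprime
      rw [h4]
      exact hw
  · rcases hw2 with h | h
    · exact Or.inl h
    · right
      have h2 : k * s ≡ w * s [MOD r] := hk1.mul_right s
      have h3 : k * s % r = w * s % r := h2
      rw [h3]
      exact h

/-- a scaled residue -/
theorem scaled (q p r k j x : ℕ) (hq : q = r * p) (h : k * j % p = 1) (hx : x < p) (hp : 1 < p) :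
    (k * (r * (j * x % p))) % q = r * x := by
  have h1 : k * (r * (j * x % p)) = r * (k * (j * x % p)) := by ring
  rw [h1, hq, Nat.mul_mod_mul_left]
  congr 1
  have h2 : k * (j * x % p) ≡ x [MOD p] := by
    have h4 : j * x % p ≡ j * x [MOD p] := Nat.mod_modEq _ _
    have h5 : k * j ≡ 1 [MOD p] := by
      unfold Nat.ModEq
      rw [h, Nat.mod_eq_of_lt hp]
    calc k * (j * x % p) ≡ k * (j * x) [MOD p] := h4.mul_left k
      _ = (k * j) * x := by ring
      _ ≡ 1 * x [MOD p] := h5.mul_right _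
      _ = x := one_mul _
  rw [h2, Nat.mod_eq_of_lt hx]

/-- products of small positive numbers are not divisible -/
theorem pos_mod (p j x : ℕ) (hp : p.Prime) (hj : 0 < j) (hjp : j < p) (hx : 0 < x) (hxp : x < p) :
    0 < j * x % p := by
  apply Nat.pos_of_ne_zero
  intro h
  rcases hp.dvd_mul.1 (Nat.dvd_of_mod_eq_zero h) with h1 | h1
  · exact absurd (Nat.le_of_dvd hj h1) (by omega)
  · exact absurd (Nat.le_of_dvd hx h1) (by omega)

theorem main : Pool.Agent.W528.HD.AQ := by
  intro p r c F D hp hr hne hc hcr hF m n a b ha hb hD hlt j s hj hjp hs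
  have hN : 0 < p * r := Nat.mul_pos hp.pos hr.pos
  have hlt1 : r * ∑ i, a i + p * ∑ l, b l < p * r := by
    refine lt_of_le_of_lt ?_ hlt
    exact Nat.le_mul_of_pos_left _ hD
  have hsa : ∑ i, a i < p := by
    have h1 : r * ∑ i, a i < r * p := by
      rw [mul_comm r p]; omega
    exact Nat.lt_of_mul_lt_mul_left h1
  have hsb : ∑ l, b l < r := by
    have h1 : p * ∑ l, b l < p * r := by omega
    exact Nat.lt_of_mul_lt_mul_left h1
  have hai : ∀ i, a i < p := by
    intro i
    have : a i ≤ ∑ i, a i := Finset.single_le_sum (f := a) (fun _ _ => Nat.zero_le _) (Finset.mem_univ i)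
    omega
  have hbl : ∀ l, b l < r := by
    intro l
    have : b l ≤ ∑ l, b l := Finset.single_le_sum (f := b) (fun _ _ => Nat.zero_le _) (Finset.mem_univ l)
    omega
  refine ⟨fun i => pos_mod p j (a i) hp hj hjp (ha i) (hai i),
    fun h0 l => pos_mod r s (b l) hr h0 hs (hb l) (hbl l), ?_⟩
  obtain ⟨j', hj'co, hj'j, hj's⟩ := choice p r hp hr hne j s hj hjp hs
  refine ⟨j', hj'co, ?_⟩
  have hcs : ∀ s0 : ℕ, c ^ s0 ≡ 1 [MOD (p * r)] := by
    intro s0
    have h1 : c ≡ 1 [MOD (p * r)] := ((Nat.modEq_iff_dvd' hc.one_lt.le).2 hcr).symm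
    have h2 := h1.pow s0
    rw [one_pow] at h2
    exact h2
  have hred : ∀ (e s0 : ℕ), (j' * e * c ^ s0) % (p * r) = (j' * e) % (p * r) := by
    intro e s0
    have h1 : j' * e * c ^ s0 ≡ j' * e * 1 [MOD (p * r)] := (hcs s0).mul_left _
    rw [mul_one] at h1
    exact h1
  have h1 : ∑ i, ∑ e ∈ range F, (j' * (r * (j * a i % p)) * c ^ e) % (p * r) =
      F * (r * ∑ i, a i) := by
    rw [Finset.mul_sum, Finset.mul_sum]
    apply Finset.sum_congr rfl
    intro i _
    simp only [hred]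
    rw [Finset.sum_const, Finset.card_range, smul_eq_mul,
      scaled _ p r j' j (a i) (mul_comm p r) hj'j (hai i) hp.one_lt]
  have h2 : ∑ l, ∑ e ∈ range F, (j' * (p * (s * b l % r)) * c ^ e) % (p * r) ≤
      F * (p * ∑ l, b l) := by
    rw [Finset.mul_sum, Finset.mul_sum]
    apply Finset.sum_le_sum
    intro l _
    simp only [hred]
    rw [Finset.sum_const, Finset.card_range, smul_eq_mul]
    apply Nat.mul_le_mul_left
    rcases hj's with h4 | h4
    · rw [h4]; simp
    · rw [scaled _ r p j' s (b l) rfl h4 (hbl l) hr.one_lt]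
  rw [h1]
  calc D * (F * (r * ∑ i, a i) + ∑ l, ∑ e ∈ range F, (j' * (p * (s * b l % r)) * c ^ e) % (p * r)) ≤
        D * (F * (r * ∑ i, a i) + F * (p * ∑ l, b l)) :=
        Nat.mul_le_mul_left _ (Nat.add_le_add_left h2 _)
    _ = F * (D * (r * ∑ i, a i + p * ∑ l, b l)) := by ring
    _ < F * (p * r) := Nat.mul_lt_mul_of_pos_left hlt hF

end Pool.Agent.W806.HD.AQ
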